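import Mathlib
import Pool.Agent.Q267.Perm.Abs

/-!
# MP_cf7092_nt: the permanent of `[|j-k|]_{1 ≤ j,k ≤ p}` modulo `p`

For every odd prime `p` the permanent of the matrix `|j-k|`, `1 ≤ j, k ≤ p`, is congruent to
`-1/2` modulo `p`.
-/

namespace Pool.Agent.Results.MP_cf7092_nt.PermAbsDiff

theorem result : ∀ p : ℕ, p.Prime → p ≠ 2 →
    2 * (Matrix.of fun j k : Finset.Icc 1 p => |((j : ℕ) : ℤ) - ((k : ℕ) : ℤ)|).permanent ≡ -1
      [ZMOD p] := by
  intro p hp hp2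
  have := Fact.mk hp
  exact Pool.Agent.Q267.Perm.perm_abs hp2

end Pool.Agent.Results.MP_cf7092_nt.PermAbsDiff
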